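import Pool.Agent.H854R3.CR.Stmts2

set_option autoImplicit false

/-! Task R2: the quotient ring has the properties `RingQ`. -/

namespace Pool.Agent.H725R3.CR2

open Pool.Agent.H854R3.NE Pool.Agent.H854R3.CR

theorem geZ_zero (k : ℕ) : GeZ k 0 := by
  intro w hw
  exact absurd rfl hw

theorem geZ_add {k : ℕ} {f g : G} (hf : GeZ k f) (hg : GeZ k g) : GeZ k (f + g) := by
  intro w hw
  by_contra hlt
  have h1 : f.coeff w = 0 := by
    by_contra h
    exact hlt (hf w h)
  have h2 : g.coeff w = 0 := by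
    by_contra h
    exact hlt (hg w h)
  apply hw
  rw [MonoidAlgebra.coeff_add, Finsupp.add_apply, h1, h2, add_zero]

theorem geZ_neg {k : ℕ} {f : G} (hf : GeZ k f) : GeZ k (-f) := by
  intro w hw
  apply hf w
  intro h
  apply hw
  rw [MonoidAlgebra.coeff_neg, Finsupp.neg_apply, h, neg_zero]

theorem geZ_mono {j k : ℕ} (hjk : j ≤ k) {f : G} (hf : GeZ k f) : GeZ j f :=
  fun w hw => hjk.trans (hf w hw)

theorem geZ_mul {j k : ℕ} {f g : G} (hf : GeZ j f) (hg : GeZ k g) : GeZ (j + k) (f * g) := by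
  classical
  intro w hw
  have h1 : w ∈ (f * g).coeff.support := Finsupp.mem_support_iff.mpr hw
  have h2 := MonoidAlgebra.support_coeff_mul_subset f g h1
  rw [Finset.mem_mul] at h2
  obtain ⟨u, hu, v, hv, rfl⟩ := h2
  rw [FreeMonoid.length_mul]
  exact add_le_add (hf u (Finsupp.mem_support_iff.mp hu)) (hg v (Finsupp.mem_support_iff.mp hv))

theorem geZ_single {w : W2} (c : ℤ) : GeZ w.length (MonoidAlgebra.single w c : G) := by
  classical
  intro v hv
  rw [MonoidAlgebra.coeff_single_apply] at hv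
  split_ifs at hv with h
  · rw [h]
  · exact absurd rfl hv

theorem geZ_gx : GeZ 1 gx := geZ_single (w := FreeMonoid.of 0) 1

theorem geZ_gy : GeZ 1 gy := geZ_single (w := FreeMonoid.of 1) 1

/-- the augmentation ideal as a ring -/
def Gp : NonUnitalSubring G where
  carrier := {f | GeZ 1 f}
  zero_mem' := geZ_zero 1
  add_mem' := fun h1 h2 => geZ_add h1 h2
  neg_mem' := fun h => geZ_neg h
  mul_mem' := fun h1 h2 => geZ_mono (by norm_num) (geZ_mul h1 h2)

theorem mem_Gp {f : G} : f ∈ Gp ↔ GeZ 1 f := Iff.rfl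

/-- every element is the sum of its terms -/
theorem sum_terms (f : G) :
    f = ∑ w ∈ f.coeff.support, f.coeff w • (MonoidAlgebra.single w 1 : G) := by
  conv_lhs => rw [← MonoidAlgebra.sum_coeff_single f]
  rw [Finsupp.sum]
  apply Finset.sum_congr rfl
  intro w _
  rw [MonoidAlgebra.smul_single, smul_eq_mul, mul_one]

/-- an additive subgroup containing the words of length at least `k` contains `f` -/
theorem mem_of_terms {k : ℕ} (A : AddSubgroup G)
    (hA : ∀ w : W2, k ≤ w.length → (MonoidAlgebra.single w 1 : G) ∈ A) {f : G} (hf : GeZ k f) :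
    f ∈ A := by
  rw [sum_terms f]
  apply A.sum_mem
  intro w hw
  exact A.zsmul_mem (hA w (hf w (Finsupp.mem_support_iff.mp hw))) _

theorem single_mul_of (w : W2) (i : Fin 2) :
    (MonoidAlgebra.single (w * FreeMonoid.of i) 1 : G) =
      MonoidAlgebra.single w 1 * MonoidAlgebra.single (FreeMonoid.of i) 1 := by
  rw [MonoidAlgebra.single_mul_single, one_mul]

/-- decompose a nonempty word at its last letter -/
theorem last_letter (w : W2) (hw : 1 ≤ w.length) :
    ∃ (v : W2) (i : Fin 2), w = v * FreeMonoid.of i ∧ v.length + 1 = w.length := by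
  have h1 : FreeMonoid.toList w ≠ [] := by
    intro h
    have : w.length = 0 := by
      change (FreeMonoid.toList w).length = 0
      rw [h]
      rfl
    omega
  refine ⟨FreeMonoid.ofList ((FreeMonoid.toList w).dropLast), (FreeMonoid.toList w).getLast h1, ?_, ?_⟩
  · apply FreeMonoid.toList.injective
    rw [FreeMonoid.toList_mul, FreeMonoid.toList_of, FreeMonoid.toList_ofList,
      List.dropLast_append_getLast]
  · change ((FreeMonoid.toList w).dropLast).length + 1 = (FreeMonoid.toList w).length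
    have : 1 ≤ (FreeMonoid.toList w).length := hw
    rw [List.length_dropLast]
    omega

theorem letter_cases (i : Fin 2) : (MonoidAlgebra.single (FreeMonoid.of i) 1 : G) = gx ∨
    (MonoidAlgebra.single (FreeMonoid.of i) 1 : G) = gy := by
  fin_cases i
  · exact Or.inl rfl
  · exact Or.inr rfl

/-- nonempty words lie in the ring generated by the two letters -/
theorem word_mem (S : NonUnitalSubring G) (hx : gx ∈ S) (hy : gy ∈ S) :
    ∀ (n : ℕ) (w : W2), w.length = n + 1 → (MonoidAlgebra.single w 1 : G) ∈ S := by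
  intro n
  induction n with
  | zero =>
    intro w hw
    obtain ⟨i, rfl⟩ := FreeMonoid.length_eq_one.mp hw
    rcases letter_cases i with h | h <;> rw [h] <;> assumption
  | succ n ih =>
    intro w hw
    obtain ⟨v, i, rfl, hv⟩ := last_letter w (by omega)
    rw [single_mul_of]
    apply S.mul_mem (ih v (by omega))
    rcases letter_cases i with h | h <;> rw [h] <;> assumption

/-- the ring generated by the two letters is everything without constant term -/
theorem gp_le (S : NonUnitalSubring G) (hx : gx ∈ S) (hy : gy ∈ S) {f : G} (hf : GeZ 1 f) :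
    f ∈ S := by
  refine mem_of_terms (k := 1) S.toAddSubgroup ?_ hf
  intro w hw
  exact word_mem S hx hy (w.length - 1) w (by omega)

section quot

variable {I : Submodule (ZMod 2) F} {ℓ : F →ₗ[ZMod 2] ZMod 2} {R : Type} [NonUnitalRing R]
  {π : G → R}

theorem pi_add (h : IsQuot I ℓ R π) {f g : G} (hf : GeZ 1 f) (hg : GeZ 1 g) :
    π (f + g) = π f + π g := (h.1 f g hf hg).1

theorem pi_mul (h : IsQuot I ℓ R π) {f g : G} (hf : GeZ 1 f) (hg : GeZ 1 g) :
    π (f * g) = π f * π g := (h.1 f g hf hg).2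

theorem pi_zero (h : IsQuot I ℓ R π) : π 0 = 0 := by
  have := pi_add h (geZ_zero 1) (geZ_zero 1)
  rw [add_zero] at this
  exact (left_eq_add.mp this)

theorem pi_neg (h : IsQuot I ℓ R π) {f : G} (hf : GeZ 1 f) : π (-f) = -π f := by
  have := pi_add h hf (geZ_neg hf)
  rw [add_neg_cancel, pi_zero h] at this
  exact (neg_eq_of_add_eq_zero_right this.symm).symm

theorem pi_sub (h : IsQuot I ℓ R π) {f g : G} (hf : GeZ 1 f) (hg : GeZ 1 g) :
    π (f - g) = π f - π g := by
  rw [sub_eq_add_neg, pi_add h hf (geZ_neg hg), pi_neg h hg, ← sub_eq_add_neg]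

theorem geZ_nsmul {k : ℕ} {f : G} (hf : GeZ k f) (n : ℕ) : GeZ k (n • f) := by
  induction n with
  | zero => rw [zero_smul]; exact geZ_zero k
  | succ n ih => rw [succ_nsmul]; exact geZ_add ih hf

theorem pi_nsmul (h : IsQuot I ℓ R π) {f : G} (hf : GeZ 1 f) (n : ℕ) :
    π (n • f) = n • π f := by
  induction n with
  | zero => rw [zero_smul, zero_smul, pi_zero h]
  | succ n ih => rw [succ_nsmul, succ_nsmul, pi_add h (geZ_nsmul hf n) hf, ih]

theorem red_two (f : G) : red (2 • f) = 0 := by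
  apply MonoidAlgebra.ext
  ext w
  rw [red, MonoidAlgebra.coeff_mapRingHom, MonoidAlgebra.coeff_smul]
  simp only [Finsupp.smul_apply, nsmul_eq_mul, map_mul]
  have h2 : (Int.castRingHom (ZMod 2)) ((2 : ℕ) : ℤ) = 0 := by decide
  rw [h2, zero_mul]
  rfl

/-- multiples of two with only long words are relations -/
theorem inJ_of_long (f : G) (hf : GeZ 3 f) (h1 : red f ∈ I) (h2 : ℓ (red f) = 0) : InJ I ℓ f := by
  refine ⟨h1, ?_⟩
  intro w hw
  have h3 : f.coeff w = 0 := by
    by_contra h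
    have := hf w h
    omega
  rw [h3, h2, ZMod.val_zero]
  simp

theorem four_smul (h : IsQuot I ℓ R π) (r : R) : 4 • r = 0 := by
  obtain ⟨f, hf, rfl⟩ := h.2.1 r
  rw [← pi_nsmul h hf]
  refine (h.2.2 _ (geZ_nsmul hf 4)).mpr ?_
  have h4 : (4 : ℕ) • f = 2 • (2 • f) := by
    rw [← mul_smul]
    norm_num
  have hr : red (4 • f) = 0 := by
    rw [h4, red_two]
  refine ⟨by rw [hr]; exact I.zero_mem, ?_⟩
  intro w _
  rw [hr, map_zero, ZMod.val_zero, MonoidAlgebra.coeff_smul]
  simp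

theorem two_mul_three (h : IsQuot I ℓ R π) (a b c : R) : 2 • (a * b * c) = 0 := by
  obtain ⟨f, hf, rfl⟩ := h.2.1 a
  obtain ⟨g, hg, rfl⟩ := h.2.1 b
  obtain ⟨k, hk, rfl⟩ := h.2.1 c
  have h2 : GeZ 2 (f * g) := geZ_mul hf hg
  have h3 : GeZ 3 (f * g * k) := geZ_mul h2 hk
  rw [← pi_mul h hf hg, ← pi_mul h (geZ_mono (by norm_num) h2) hk,
    ← pi_nsmul h (geZ_mono (by norm_num) h3)]
  refine (h.2.2 _ (geZ_nsmul (geZ_mono (by norm_num) h3) 2)).mpr ?_
  apply inJ_of_long
  · exact geZ_nsmul h3 2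
  · rw [red_two]; exact I.zero_mem
  · rw [red_two, map_zero]

/-- The preimage of a subring. -/
def pre (h : IsQuot I ℓ R π) (C : NonUnitalSubring R) : NonUnitalSubring G where
  carrier := {f | GeZ 1 f ∧ π f ∈ C}
  zero_mem' := ⟨geZ_zero 1, by rw [pi_zero h]; exact C.zero_mem⟩
  add_mem' := fun h1 h2 => ⟨geZ_add h1.1 h2.1, by rw [pi_add h h1.1 h2.1]; exact C.add_mem h1.2 h2.2⟩
  neg_mem' := fun h1 => ⟨geZ_neg h1.1, by rw [pi_neg h h1.1]; exact C.neg_mem h1.2⟩
  mul_mem' := fun h1 h2 => ⟨geZ_mono (by norm_num) (geZ_mul h1.1 h2.1), by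
    rw [pi_mul h h1.1 h2.1]; exact C.mul_mem h1.2 h2.2⟩

theorem top_of_mem (h : IsQuot I ℓ R π) (C : NonUnitalSubring R) (hx : π gx ∈ C) (hy : π gy ∈ C) :
    C = ⊤ := by
  rw [eq_top_iff]
  intro r _
  obtain ⟨f, hf, rfl⟩ := h.2.1 r
  exact (gp_le (pre h C) ⟨geZ_gx, hx⟩ ⟨geZ_gy, hy⟩ hf).2

theorem closure_top (h : IsQuot I ℓ R π) :
    NonUnitalSubring.closure ({π gx, π gy} : Set R) = ⊤ :=
  top_of_mem h _ (NonUnitalSubring.subset_closure (by simp))
    (NonUnitalSubring.subset_closure (by simp))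

theorem lift_sq (h : IsQuot I ℓ R π) {a : R} (ha : a ∈ Pw R 1) : ∃ f, GeZ 2 f ∧ π f = a := by
  rw [Pw] at ha
  induction ha using AddSubgroup.closure_induction with
  | mem z hz =>
    obtain ⟨a, _, b, rfl⟩ := hz
    obtain ⟨f, hf, rfl⟩ := h.2.1 a
    obtain ⟨g, hg, rfl⟩ := h.2.1 b
    exact ⟨f * g, geZ_mul hf hg, pi_mul h hf hg⟩
  | zero => exact ⟨0, geZ_zero 2, pi_zero h⟩
  | add x y _ _ hx hy =>
    obtain ⟨f, hf, rfl⟩ := hx
    obtain ⟨g, hg, rfl⟩ := hy
    exact ⟨f + g, geZ_add hf hg, pi_add h (geZ_mono (by norm_num) hf) (geZ_mono (by norm_num) hg)⟩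
  | neg x _ hx =>
    obtain ⟨f, hf, rfl⟩ := hx
    exact ⟨-f, geZ_neg hf, pi_neg h (geZ_mono (by norm_num) hf)⟩

theorem ev_gx (a b : G) : ev a b gx = gx + a := by
  unfold ev gx
  rw [MonoidAlgebra.lift_single, one_smul, FreeMonoid.lift_eval_of]
  rfl

theorem ev_gy (a b : G) : ev a b gy = gy + b := by
  unfold ev gy
  rw [MonoidAlgebra.lift_single, one_smul, FreeMonoid.lift_eval_of]
  rfl

/-- The elements whose substitution image lies in a subring. -/
def preEv (h : IsQuot I ℓ R π) (a b : G) (C : NonUnitalSubring R) : NonUnitalSubring G :=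
  { carrier := {f | GeZ 1 (ev a b f) ∧ π (ev a b f) ∈ C}
    zero_mem' := by
      change GeZ 1 (ev a b 0) ∧ π (ev a b 0) ∈ C
      rw [map_zero]
      exact (pre h C).zero_mem
    add_mem' := by
      intro f g hf hg
      change GeZ 1 (ev a b (f + g)) ∧ π (ev a b (f + g)) ∈ C
      rw [map_add]
      exact (pre h C).add_mem hf hg
    neg_mem' := by
      intro f hf
      change GeZ 1 (ev a b (-f)) ∧ π (ev a b (-f)) ∈ C
      rw [map_neg]
      exact (pre h C).neg_mem hf
    mul_mem' := by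
      intro f g hf hg
      change GeZ 1 (ev a b (f * g)) ∧ π (ev a b (f * g)) ∈ C
      rw [map_mul]
      exact (pre h C).mul_mem hf hg }

theorem closure_perturbed (h : IsQuot I ℓ R π) (h4 : C4 I ℓ) {a b : R} (ha : a ∈ Pw R 1)
    (hb : b ∈ Pw R 1) : NonUnitalSubring.closure ({π gx + a, π gy + b} : Set R) = ⊤ := by
  obtain ⟨f, hf, rfl⟩ := lift_sq h ha
  obtain ⟨g, hg, rfl⟩ := lift_sq h hb
  set C := NonUnitalSubring.closure ({π gx + π f, π gy + π g} : Set R) with hC
  have hx : π gx + π f ∈ C := NonUnitalSubring.subset_closure (by simp)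
  have hy : π gy + π g ∈ C := NonUnitalSubring.subset_closure (by simp)
  have hf1 : GeZ 1 f := geZ_mono (by norm_num) hf
  have hg1 : GeZ 1 g := geZ_mono (by norm_num) hg
  have key : ∀ W : G, GeZ 1 W → GeZ 1 (ev f g W) ∧ π (ev f g W) ∈ C := by
    intro W hW
    refine gp_le (preEv h f g C) ?_ ?_ hW
    · change GeZ 1 (ev f g gx) ∧ π (ev f g gx) ∈ C
      rw [ev_gx, pi_add h geZ_gx hf1]
      exact ⟨geZ_add geZ_gx hf1, hx⟩
    · change GeZ 1 (ev f g gy) ∧ π (ev f g gy) ∈ C
      rw [ev_gy, pi_add h geZ_gy hg1]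
      exact ⟨geZ_add geZ_gy hg1, hy⟩
  have fin : ∀ (z W : G), GeZ 1 z → GeZ 1 W → GeZ 3 (z - ev f g W) → red (z - ev f g W) ∈ I →
      ℓ (red (z - ev f g W)) = 0 → π z ∈ C := by
    intro z W hz hW h3 h5 h6
    obtain ⟨k1, k2⟩ := key W hW
    have h7 : π (z - ev f g W) = 0 :=
      (h.2.2 _ (geZ_mono (by norm_num) h3)).mpr (inJ_of_long _ h3 h5 h6)
    rw [pi_sub h hz k1, sub_eq_zero] at h7
    rw [h7]
    exact k2
  obtain ⟨⟨W, w1, w2, w3, w4⟩, ⟨W', v1, v2, v3, v4⟩⟩ := h4 f g hf hg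
  exact top_of_mem h C (fin gx W geZ_gx w1 w2 w3 w4) (fin gy W' geZ_gy v1 v2 v3 v4)

/-- the commutator of the generators -/
theorem comm_coeff : (gx * gy - gy * gx : G).coeff (FreeMonoid.of 0 * FreeMonoid.of 1) = 1 := by
  classical
  unfold gx gy
  rw [MonoidAlgebra.single_mul_single, MonoidAlgebra.single_mul_single, MonoidAlgebra.coeff_sub,
    Finsupp.sub_apply, MonoidAlgebra.coeff_single_apply, MonoidAlgebra.coeff_single_apply]
  have hne : (FreeMonoid.of (1 : Fin 2) * FreeMonoid.of 0 : W2) ≠ FreeMonoid.of 0 * FreeMonoid.of 1 := by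
    intro h
    have := congrArg FreeMonoid.toList h
    simp at this
  rw [if_pos rfl, if_neg hne]
  norm_num

theorem geZ_comm : GeZ 1 (gx * gy - gy * gx) := by
  have h1 : GeZ 1 (gx * gy) := geZ_mono (by norm_num) (geZ_mul geZ_gx geZ_gy)
  have h2 : GeZ 1 (gy * gx) := geZ_mono (by norm_num) (geZ_mul geZ_gy geZ_gx)
  rw [sub_eq_add_neg]
  exact geZ_add h1 (geZ_neg h2)

theorem pi_comm (h : IsQuot I ℓ R π) :
    π (2 • (gx * gy - gy * gx)) = 2 • (π gx * π gy - π gy * π gx) := by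
  have h1 : GeZ 1 (gx * gy) := geZ_mono (by norm_num) (geZ_mul geZ_gx geZ_gy)
  have h2 : GeZ 1 (gy * gx) := geZ_mono (by norm_num) (geZ_mul geZ_gy geZ_gx)
  rw [pi_nsmul h geZ_comm, pi_sub h h1 h2, pi_mul h geZ_gx geZ_gy, pi_mul h geZ_gy geZ_gx]

theorem comm_ne (h : IsQuot I ℓ R π) : 2 • (π gx * π gy - π gy * π gx) ≠ 0 := by
  intro h0
  rw [← pi_comm h, h.2.2 _ (geZ_nsmul geZ_comm 2)] at h0
  have h1 := h0.2 (FreeMonoid.of 0 * FreeMonoid.of 1) (by
    rw [FreeMonoid.length_mul, FreeMonoid.length_of, FreeMonoid.length_of])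
  rw [red_two, map_zero, ZMod.val_zero, MonoidAlgebra.coeff_smul, Finsupp.smul_apply,
    comm_coeff] at h1
  norm_num at h1

/-- words with at least `n + 1` letters map into `Pw R n` -/
theorem word_pw (h : IsQuot I ℓ R π) : ∀ (n : ℕ) (w : W2), n + 1 ≤ w.length →
    π (MonoidAlgebra.single w 1) ∈ Pw R n := by
  intro n
  induction n with
  | zero =>
    intro w _
    exact AddSubgroup.mem_top _
  | succ n ih =>
    intro w hw
    obtain ⟨v, i, rfl, hv⟩ := last_letter w (by omega)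
    rw [single_mul_of]
    have h1 : GeZ 1 (MonoidAlgebra.single v 1 : G) := geZ_mono (by omega) (geZ_single (w := v) 1)
    have h2 : GeZ 1 (MonoidAlgebra.single (FreeMonoid.of i) 1 : G) := geZ_single 1
    rw [pi_mul h h1 h2, Pw]
    exact AddSubgroup.subset_closure ⟨_, ih v (by omega), _, rfl⟩

/-- the preimage of an additive subgroup -/
def preA (h : IsQuot I ℓ R π) (C : AddSubgroup R) : AddSubgroup G where
  carrier := {f | GeZ 1 f ∧ π f ∈ C}
  zero_mem' := ⟨geZ_zero 1, by rw [pi_zero h]; exact C.zero_mem⟩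
  add_mem' := fun h1 h2 => ⟨geZ_add h1.1 h2.1, by rw [pi_add h h1.1 h2.1]; exact C.add_mem h1.2 h2.2⟩
  neg_mem' := fun h1 => ⟨geZ_neg h1.1, by rw [pi_neg h h1.1]; exact C.neg_mem h1.2⟩

theorem long_pw (h : IsQuot I ℓ R π) (n : ℕ) {f : G} (hf : GeZ (n + 1) f) : π f ∈ Pw R n := by
  refine (mem_of_terms (k := n + 1) (preA h (Pw R n)) ?_ hf).2
  intro w hw
  exact ⟨geZ_mono (by omega) (geZ_single (w := w) 1), word_pw h n w hw⟩

/-- lift of an element of the free algebra over the field with two elements -/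
noncomputable def lft (m : F) : G :=
  MonoidAlgebra.ofCoeff (m.coeff.mapRange (fun z : ZMod 2 => (z.val : ℤ)) (by simp))

theorem lft_coeff (m : F) (w : W2) : (lft m).coeff w = ((m.coeff w).val : ℤ) := rfl

theorem red_lft (m : F) : red (lft m) = m := by
  apply MonoidAlgebra.ext
  ext w
  rw [red, MonoidAlgebra.coeff_mapRingHom, lft_coeff]
  simp

theorem comm_pw (h : IsQuot I ℓ R π) (h3 : C3 I ℓ) (n : ℕ) :
    2 • (π gx * π gy - π gy * π gx) ∈ Pw R n := by
  obtain ⟨m, hm, hm1, hm2⟩ := h3 (n + 3)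
  have hl : GeZ (n + 3) (lft m) := by
    intro w hw
    apply hm1 w
    intro h0
    apply hw
    rw [lft_coeff, h0]
    simp
  have hred : red (2 • (gx * gy - gy * gx) - lft m) = -m := by
    rw [map_sub, red_two, red_lft, zero_sub]
  have hJ : InJ I ℓ (2 • (gx * gy - gy * gx) - lft m) := by
    refine ⟨by rw [hred]; exact I.neg_mem hm, ?_⟩
    intro w hw
    have h5 : (lft m).coeff w = 0 := by
      by_contra h6
      have := hl w h6
      omega
    have h6 : (ℓ (-m)).val = 1 := by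
      rw [map_neg, hm2]
      decide
    rw [hred, h6, MonoidAlgebra.coeff_sub, Finsupp.sub_apply, h5, MonoidAlgebra.coeff_smul,
      Finsupp.smul_apply]
    simp
  have h1 : GeZ 1 (lft m) := geZ_mono (by omega) hl
  have h7 : π (2 • (gx * gy - gy * gx) - lft m) = 0 := by
    refine (h.2.2 _ ?_).mpr hJ
    rw [sub_eq_add_neg]
    exact geZ_add (geZ_nsmul geZ_comm 2) (geZ_neg h1)
  rw [pi_sub h (geZ_nsmul geZ_comm 2) h1, sub_eq_zero, pi_comm h] at h7
  rw [h7]
  exact long_pw h n (geZ_mono (by omega) hl)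

end quot

/-- Task R2. -/
theorem taskR2 : TaskR2 := by
  intro I ℓ _ _ h3 h4 R _ π h
  exact ⟨closure_top h, four_smul h, two_mul_three h,
    fun a ha b hb => closure_perturbed h h4 ha hb, comm_ne h, comm_pw h h3⟩

end Pool.Agent.H725R3.CR2
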